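import Pool.Agent.H7.KC.Stmts
import Pool.Agent.H97.IA.NTS

/-!
Row NTV of the board kc15: copy of `Pool/Agent/H97/IA/NTS.lean` (helper97), last theorem.
-/

set_option autoImplicit false

open Finset

namespace Pool.KC7

open Pool.Agent.H23.KT Pool.Agent.H46.KW Pool.KQ Pool.GT7 Pool.GU7 Pool.HZ7 Pool.IA7

theorem ntv_thm (hE : ESTStmt) (_hT : TTRStmt) : NTVStmt := by
  intro p w r hP K K₁ hK₁
  have hwp : w ≤ p := hP.wp
  have hrp : r ≤ p := hP.pz.rp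
  have hA1 : (1 : ℝ) ≤ ((p + 4).choose (w + 3) : ℝ) := by
    have : 0 < (p + 4).choose (w + 3) := Nat.choose_pos (by omega)
    exact_mod_cast this
  have hB0 : (0 : ℝ) ≤ ((p + 3).choose (w + 2) : ℝ) := Nat.cast_nonneg _
  have hc0 : 0 ≤ c1 p w := Nat.cast_nonneg _
  have hAB : ((w : ℝ) + 3) * ((p + 4).choose (w + 3) : ℝ) =
      ((p : ℝ) + 4) * ((p + 3).choose (w + 2) : ℝ) := by
    have h := Nat.add_one_mul_choose_eq (p + 3) (w + 2)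
    have h' : ((p + 3 + 1 : ℕ) : ℝ) * ((p + 3).choose (w + 2) : ℝ) =
        ((p + 3 + 1).choose (w + 2 + 1) : ℝ) * ((w + 2 + 1 : ℕ) : ℝ) := by exact_mod_cast h
    push_cast at h'
    linear_combination -h'
  have hBc : ((w : ℝ) + 2) * ((p + 3).choose (w + 2) : ℝ) = ((p : ℝ) + 3) * c1 p w := by
    have h := Nat.add_one_mul_choose_eq (p + 2) (w + 1)
    have h' : ((p + 2 + 1 : ℕ) : ℝ) * ((p + 2).choose (w + 1) : ℝ) =
        ((p + 2 + 1).choose (w + 1 + 1) : ℝ) * ((w + 1 + 1 : ℕ) : ℝ) := by exact_mod_cast h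
    push_cast at h'
    unfold c1
    linear_combination -h'
  have hK0 : (0 : ℝ) ≤ K := Nat.cast_nonneg _
  obtain ⟨E, hEd⟩ : ∃ E : ℝ, E = ((p + 4).choose (w + 3) : ℝ) * nts_D ((K : ℝ) + 1) (w + 3) :=
    ⟨_, rfl⟩
  have hE0 : 0 ≤ E := by
    rw [hEd]
    exact mul_nonneg (by linarith) (nts_D_nonneg (by linarith) _)
  obtain ⟨EY, hEY⟩ : ∃ EY : ℝ, EY = E + 1 / 2 * c1 p w *
      (((p : ℝ) + 4) * (((K : ℝ) + 1) * ((K : ℝ) + 1))) + K₁ := ⟨_, rfl⟩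
  obtain ⟨EK, hEK⟩ : ∃ EK : ℝ, EK = E + 1 / 2 * c1 p w + 1 / 2 * c1 p w *
      (((p : ℝ) + 4) * 3 ^ (w + 1)) := ⟨_, rfl⟩
  have hEY0 : 0 < EY := by rw [hEY]; positivity
  have hEK0 : 0 ≤ EK := by rw [hEK]; positivity
  obtain ⟨Zb, hZb⟩ : ∃ Zb : ℝ, Zb = ((p + 3).choose (w + 2) : ℝ) * ((r : ℝ) + 1) +
      1 / 2 * c1 p w * ((p : ℝ) + 3) := ⟨_, rfl⟩
  obtain ⟨Yb, hYb⟩ : ∃ Yb : ℝ, Yb = ((p + 3).choose (w + 2) : ℝ) * ((K : ℝ) + r) +
      1 / 2 * c1 p w * (((p : ℝ) + 3) * K) + 1 / 2 * c1 p w * r := ⟨_, rfl⟩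
  have hZb0 : 0 ≤ Zb := by rw [hZb]; positivity
  have hYb0 : 0 ≤ Yb := by rw [hYb]; positivity
  refine ⟨EY + EK, by positivity, max 1 ⌈Zb * ((r : ℝ) + K) + Yb * (r + 1) +
    (EY + EK) * ((p : ℝ) + 4 + r + K + 1)⌉₊, fun a ha s hs1 hsK n σ hn hσ hsum => ?_⟩
  have ha1 : 1 ≤ a := le_trans (le_max_left _ _) ha
  have haM : Zb * ((r : ℝ) + K) + Yb * (r + 1) +
      (EY + EK) * ((p : ℝ) + 4 + r + K + 1) ≤ a :=
    (Nat.le_ceil _).trans (by exact_mod_cast le_trans (le_max_right _ _) ha)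
  have hα : (1 : ℝ) ≤ a := by exact_mod_cast ha1
  have hP0 : 0 < (a : ℝ) ^ (w + 1) := by positivity
  have hrR : (r : ℝ) ≤ p := by exact_mod_cast hrp
  have hsR : (1 : ℝ) ≤ s := by exact_mod_cast hs1
  have hsKR : (s : ℝ) ≤ K := by exact_mod_cast hsK
  obtain ⟨h1, h2⟩ := nts_main hE p w r K a s hwp hrp K₁ hK₁ ha1 hsK n σ hn hσ hsum E hEd
  rw [← hEY] at h1
  rw [← hEK] at h2
  constructor
  · intro hs
    have hs' : (s : ℝ) = 1 := by exact_mod_cast hs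
    rw [hs'] at h1
    have h3 := (abs_le.1 h1).2
    have h4 := (abs_le.1 h2).1
    linarith
  · intro hs
    have hs2 : (2 : ℝ) ≤ s := by exact_mod_cast hs
    have hcoef := nts_coef (r := (r : ℝ)) hA1 (Nat.cast_nonneg w) hs2 hAB hBc
    have hzb := nts_z hB0 hc0 (Nat.cast_nonneg r) hrR
    have hyb := nts_y (p := (p : ℝ)) hB0 hc0 (Nat.cast_nonneg p) (Nat.cast_nonneg r) hsR hsKR
    rw [← hZb] at hzb
    rw [← hYb] at hyb
    have h3 := nts_fin hα hP0 (Nat.cast_nonneg p) (Nat.cast_nonneg r) hsR hsKR hEY0.le hEK0 hZb0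
      hYb0 hyb hzb h1 h2 hcoef haM
    push_cast
    refine le_trans (le_of_eq ?_) (h3.trans (le_of_eq ?_)) <;> ring

end Pool.KC7
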